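import Pool.Agent.H712R2.MA.Stm
import Pool.Agent.H712R2.MA.H3

/-!
# Kalai's flag conjecture for centrally symmetric polytopes: statements of the pieces

Problem MP_ac2e75_co, frozen statement S10739.  Owner: helper237.

PIECES: file `Pool/Agent/Run7/<seat>/FK/<PIECE>.lean`, namespace `Run7.<seat>.FK.<PIECE>`, importing
this file (and library files), with `theorem t_<PIECE> : S_<PIECE>`; a piece which uses other pieces
takes them as hypotheses, for instance `theorem t_A4 (h1 : S_A1) (h2 : S_A2) (h3 : S_A3) : S_A4`.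

OVERVIEW.  For a symmetric polytope `K = {|l_k| ≤ 1}` and `0 < λ < 1`, `λ = lam b`, we prove
`∫_{λK} vol((K - x)°) dx ≥ (2 π b)^n / n!`, `2 π b = 2 log((1+λ)/(1-λ))`.  The proof is the complex
Monge-Ampère proof of the symmetric Mahler conjecture in `Pool.Agent.H712R2.MA` (uniform law on
`[-1,1]`) with another conformal map: `hb b` maps the disc onto a lens whose upper boundary is hit by
Brownian motion with density proportional to `1/(1-x)` on `[-λ, λ]`, the lower one with `1/(1+x)`.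
As `λ → 1` the left side is at most `#flags (log 1/(1-λ))^n / (n!)^2` up to lower order (parts D, E),
hence `#flags ≥ 2^n n!`.
-/

set_option autoImplicit false

noncomputable section

open MeasureTheory Filter Topology
open scoped BigOperators Matrix ENNReal

namespace Run7.h237.FK

open H712MA (Lens pk gf gd af VV DS dt Cut Spans Bd E2 cay)

/-! ## A. One complex variable -/

/-- the map `h(z) = (4b/π) Σ_{n odd} z^n / (n (n + i b))` -/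
def hb (b : ℝ) (z : ℂ) : ℂ :=
  ((4 * b / Real.pi : ℝ) : ℂ) * ∑' j : ℕ, z ^ (2 * j + 1) /
    (((2 * j + 1 : ℕ) : ℂ) * (((2 * j + 1 : ℕ) : ℂ) + (b : ℂ) * Complex.I))

/-- its derivative `h'(z) = (4b/π) Σ_{n odd} z^(n-1) / (n + i b)` -/
def db (b : ℝ) (z : ℂ) : ℂ :=
  ((4 * b / Real.pi : ℝ) : ℂ) * ∑' j : ℕ, z ^ (2 * j) /
    (((2 * j + 1 : ℕ) : ℂ) + (b : ℂ) * Complex.I)

/-- `log ((1+z)/(1-z))` (`cay` is the Cayley transform `(1+z)/(1-z)` of the library) -/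
def lg (z : ℂ) : ℂ := Complex.log (cay z)

/-- `τ = (2/π) arg ((1+z)/(1-z))` -/
def tau (z : ℂ) : ℝ := 2 / Real.pi * (lg z).im

/-- `tanh (w/2)`, the inverse of `lg` -/
def Th (w : ℂ) : ℂ := (Complex.exp w - 1) / (Complex.exp w + 1)

/-- `λ = tanh (π b / 2)` -/
def lam (b : ℝ) : ℝ := (1 - Real.exp (-(b * Real.pi))) / (1 + Real.exp (-(b * Real.pi)))

/-- lower bound of `|h'|` -/
def cb (b : ℝ) : ℝ :=
  4 * b * Real.exp (-(b * Real.pi)) / (Real.pi * (1 + Real.exp (-(b * Real.pi))))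

/-- (A1) series facts.  Proof: as `Pool/Agent/H712R2/MA/H1.lean` (copy its lemmas `geo`, `term_le`,
`deriv_S0`, `odd_sq`, `norm_S0`; here `|n + i b| ≥ n ≥ 1`), and for the fourth item
`H712MA.hasSum_half_log` with `1/(n+ib) + ib/(n(n+ib)) = 1/n`. -/
def S_A1 : Prop := ∀ b : ℝ, 0 < b →
  (∀ z : ℂ, ‖z‖ < 1 → HasDerivAt (hb b) (db b z) z) ∧
  DifferentiableOn ℂ (db b) (Metric.ball 0 1) ∧
  (∀ z : ℂ, hb b (-z) = - hb b z ∧ db b (-z) = db b z) ∧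
  (∀ z : ℂ, ‖z‖ < 1 →
    z * db b z + (b : ℂ) * Complex.I * hb b z = ((2 * b / Real.pi : ℝ) : ℂ) * lg z) ∧
  (∀ z : ℂ, ‖z‖ < 1 → ‖hb b z‖ ≤ b * Real.pi / 2 * ‖z‖) ∧
  hb b 0 = 0 ∧ db b 0 = ((4 * b / Real.pi : ℝ) : ℂ) / (1 + (b : ℂ) * Complex.I)

/-- (A2) the logarithm of the Cayley transform; see the lemmas `cay_re`, `cay_im`, `cay_re_pos`,
`abs_arg_cay_lt` and the limit in `Pool/Agent/H712R2/MA/H3.lean` (public lemmas of `H712MA`). -/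
def S_A2 : Prop :=
  (∀ z : ℂ, ‖z‖ < 1 → HasDerivAt lg (2 / (1 - z ^ 2)) z) ∧
  (∀ z : ℂ, ‖z‖ < 1 → lg (-z) = - lg z) ∧
  (∀ z : ℂ, ‖z‖ < 1 → |(lg z).im| < Real.pi / 2 ∧ |tau z| < 1) ∧
  (∀ θ : ℝ, Real.sin θ ≠ 0 →
    Tendsto (fun r : ℝ => |tau ((r : ℂ) * Complex.exp (θ * Complex.I))|) (𝓝[<] 1) (𝓝 1)) ∧
  (∀ w : ℂ, |w.im| < Real.pi / 2 →
    ‖Th w‖ < 1 ∧ lg (Th w) = w ∧ HasDerivAt Th ((1 - Th w ^ 2) / 2) w) ∧
  (∀ z : ℂ, ‖z‖ < 1 → Th (lg z) = z) ∧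
  ContinuousOn tau (Metric.ball 0 1)

/-- (A3a) Proof.  Put `w = lg z = a + i t`, `|t| < π/2`, `z = tanh(w/2)`.  Then
`1 - z² = 1/cosh²(w/2)` and `(1 - z²) lg z / z = 2 w / sinh w`.  Now
`Re(w / sinh w) |cosh(w/2)|² = (a sinh a cos t + t sin t cosh a) / (2 (cosh a - cos t))`, and
`a sinh a ≥ cosh a - 1`, `t sin t ≥ 1 - cos t` (`|t| ≤ π/2`) give numerator `≥ cosh a - cos t`;
so `Re(2 w / sinh w) ≥ |cosh(w/2)|^(-2)`.  (Any other proof is fine.) -/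
def S_A3a : Prop := ∀ z : ℂ, ‖z‖ < 1 → z ≠ 0 → ‖1 - z ^ 2‖ ≤ ((1 - z ^ 2) * (lg z / z)).re

/-- (A3b) integral representation of `A(z) = z h'(z)`.  Proof.  By (A1) `A = (2b/π) lg - i b h`, so
`z A'(z) = (4b/π) z/(1-z²) - i b A(z)` and `d/ds [e^(-bs) A(z e^(is))] =
e^(-bs) (4 i b/π) z e^(is) / (1 - z² e^(2is))`; integrate over `[0, π]`, `A(-z) = -A(z)`. -/
def S_A3b : Prop := ∀ b : ℝ, 0 < b → ∀ z : ℂ, ‖z‖ < 1 →
  ((1 + Real.exp (-(b * Real.pi)) : ℝ) : ℂ) * (z * db b z) =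
    -(((4 * b / Real.pi : ℝ) : ℂ) * Complex.I * z) *
      ∫ s in (0 : ℝ)..Real.pi, ((Real.exp (-(b * s)) : ℝ) : ℂ) * Complex.exp (s * Complex.I) /
        (1 - z ^ 2 * Complex.exp (2 * s * Complex.I))

/-- (A3) Proof.  `Re[(1-z²)(-i) e^(is) / (1 - z² e^(2is))] = sin s (1 - |z|⁴)/|1 - z² e^(2is)|² ≥ 0`
for `s ∈ [0, π]`, and `e^(-bs) ≥ e^(-bπ)`; so by (A3b) (for `z ≠ 0`; `z = 0` directly or by
continuity) `Re((1-z²) h'(z)) ≥ cb b · Re[(1-z²) ∫_0^π (-i) e^(is)/(1 - z² e^(2is)) ds]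
= cb b · Re[(1-z²) lg z / z]` (primitive `-lg(z e^(is))/(2z)`, `lg(-z) = -lg z`), then (A3a). -/
def S_A3 : Prop := ∀ b : ℝ, 0 < b → ∀ z : ℂ, ‖z‖ < 1 →
  cb b * ‖1 - z ^ 2‖ ≤ ((1 - z ^ 2) * db b z).re

/-- (A4) Proof.  Let `w_t = (1-t) lg z₁ + t lg z₂` (in the strip `|Im| < π/2`),
`H(w) = hb b (Th w)`, `H'(w) = db b (Th w) (1 - Th w ²)/2`, `Re H' > 0` by (A3).  The mean value
theorem for `t ↦ Re[conj(lg z₂ - lg z₁) H(w_t)]` (as `mean_val` in `H712R2/MA/H1.lean`). -/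
def S_A4 : Prop := ∀ b : ℝ, 0 < b → ∀ z₁ z₂ : ℂ, ‖z₁‖ < 1 → ‖z₂‖ < 1 → z₁ ≠ z₂ →
  0 < ((starRingEnd ℂ) (lg z₂ - lg z₁) * (hb b z₂ - hb b z₁)).re

/-- (A5) Proof.  `F(s) = e^(-bs) Re h(z e^(is))` has `F'(s) = -b e^(-bs) τ(z e^(is))` (by (A1),
item 4: `d/ds h(z e^(is)) = i z e^(is) h'(z e^(is)) = b h + (2bi/π) lg`).  Integrate over `[0, π]`:
`(1 + e^(-bπ)) Re h(z) = b ∫_0^π e^(-bs) τ(z e^(is)) ds`, and `|τ| < 1`, continuous. -/
def S_A5 : Prop := ∀ b : ℝ, 0 < b → ∀ z : ℂ, ‖z‖ < 1 → |(hb b z).re| < lam b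

/-- the lens -/
def WW (b : ℝ) : Set ℂ := hb b '' Metric.ball (0 : ℂ) 1

open Classical in
/-- inverse of `hb b` -/
def eta (b : ℝ) (p : ℂ) : ℂ :=
  if hp : ∃ z, z ∈ Metric.ball (0 : ℂ) 1 ∧ hb b z = p then Classical.choose hp else 1

open Classical in
/-- the inverse, rotated so that its derivative at `0` is positive; `1` off the lens -/
def ee (b : ℝ) (p : ℂ) : ℂ :=
  if p ∈ WW b then ((‖1 + (b : ℂ) * Complex.I‖ : ℝ) : ℂ) / (1 + (b : ℂ) * Complex.I) * eta b p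
  else 1

open Classical in
/-- `τ` in the coordinate of the lens -/
def TT (b : ℝ) (p : ℂ) : ℝ := if p ∈ WW b then tau (eta b p) else 0

/-- the function `q`: `(t - x)/(1 - x)` if `x ≤ t` and `(x - t)/(1 + x)` if `t ≤ x` -/
def qf (t x : ℝ) : ℝ := max ((t - x) / (1 - x)) ((x - t) / (1 + x))

/-- (A6) the lens.  Proof: as `Pool/Agent/H712R2/MA/H2.lean`.  Injectivity of `hb b` on the disc is
(A4); `db b ≠ 0`, `|db b| ≥ cb b > 0` is (A3).  Continuity of `eta b` on `WW b`: the image under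
`hb b` of a neighbourhood of `eta b p` is a neighbourhood of `p` (`HasStrictDerivAt.map_nhds_eq`).
`WW b = -WW b`, `eta b (-p) = - eta b p`, `tau (-z) = - tau z`.  For the lens: `c0 = ‖1+bi‖ π/(4b)`,
`C = b π / 2`, `B = 1/cb b`. -/
def S_A6 : Prop := ∀ b : ℝ, 0 < b →
  (∀ p ∈ WW b, ‖eta b p‖ < 1 ∧ hb b (eta b p) = p) ∧
  (∀ z : ℂ, ‖z‖ < 1 → hb b z ∈ WW b ∧ eta b (hb b z) = z) ∧
  (∀ p ∈ WW b, HasDerivAt (eta b) (1 / db b (eta b p)) p) ∧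
  (∀ p, p ∈ WW b → ‖ee b p‖ = ‖eta b p‖) ∧
  Measurable (ee b) ∧ Continuous (fun p => ‖ee b p‖) ∧ Measurable (TT b) ∧
  (∀ p ∈ WW b, -p ∈ WW b) ∧ (∀ p, ‖ee b (-p)‖ = ‖ee b p‖) ∧ (∀ p, TT b (-p) = - TT b p) ∧
  ∃ L : Lens, L.W = WW b ∧ L.e = ee b

/-- (A7) vertical lines.  Proof.  (1) two points `p, p'` of the lens with the same real part and
`Im p < Im p'`: put `z = eta b p`, `z' = eta b p'` in (A4): `0 < (Im p' - Im p) Im(lg z' - lg z)`.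
(2) `L.e = u eta` on `W`, `|u| = 1`; `d/dt ‖eta ⟨x,t⟩‖² = 2 Im(z h'(z))/|h'(z)|²` (`H4_deriv` in
`H712R2/MA/H4.lean`) and `Im(z h'(z)) = b (τ(z) - Re h(z))` by (A1); then as the end of `H4.lean`. -/
def S_A7 : Prop := ∀ b : ℝ, 0 < b →
  (∀ x y y' : ℝ, (⟨x, y⟩ : ℂ) ∈ WW b → (⟨x, y'⟩ : ℂ) ∈ WW b → y < y' →
    TT b ⟨x, y⟩ < TT b ⟨x, y'⟩) ∧
  ∀ L : Lens, L.W = WW b → L.e = ee b →
    (∀ p ∈ WW b, deriv L.e p ≠ 0) ∧
    ∀ m : ℕ, 1 ≤ m → ∀ x y : ℝ, (⟨x, y⟩ : ℂ) ∈ WW b →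
      HasDerivAt (fun t : ℝ => ‖gf L m ⟨x, t⟩‖ ^ 2)
        (2 / m * af L m ⟨x, y⟩ * (b * (TT b ⟨x, y⟩ - x))) y

/-- (A8) integrals of `a`.  Proof: as `Pool/Agent/H712R2/MA/H5.lean` (change of variables
`p = h(z)`, polar coordinates, dominated convergence); on the disc the function is
`qf (tau z) (Re h(z))`, continuous, `≤ 1`, and `→ 1` radially for `sin θ ≠ 0`, because
`1 - qf t x ≤ (1 - |t|)/(1 - λ)` if `|t| > λ > |x|`. -/
def S_A8 : Prop := ∀ b : ℝ, 0 < b → ∀ L : Lens, L.W = WW b → L.e = ee b →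
  (∀ m : ℕ, 1 ≤ m → ∫⁻ p, ENNReal.ofReal (af L m p) = ENNReal.ofReal (m * Real.pi)) ∧
  Tendsto (fun m : ℕ => (∫⁻ p, ENNReal.ofReal (af L m p * (1 - qf (TT b p) p.re))) / (m : ℝ≥0∞))
    atTop (𝓝 0)

/-! ## B. The real side, for an abstract lens -/

/-- a lens with all the data needed for the real side -/
structure RL where
  L : Lens
  lam : ℝ
  kap : ℝ
  T : ℂ → ℝ
  lam_pos : 0 < lam
  lam_lt : lam < 1
  kap_pos : 0 < kap
  re_lt : ∀ p ∈ L.W, |p.re| < lam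
  T_lt : ∀ p ∈ L.W, |T p| < 1
  T_mono : ∀ x y y' : ℝ, (⟨x, y⟩ : ℂ) ∈ L.W → (⟨x, y'⟩ : ℂ) ∈ L.W → y < y' → T ⟨x, y⟩ < T ⟨x, y'⟩
  neg_mem : ∀ p ∈ L.W, -p ∈ L.W
  neg_norm : ∀ p, ‖L.e (-p)‖ = ‖L.e p‖
  neg_T : ∀ p, T (-p) = - T p
  cont : Continuous fun p => ‖L.e p‖
  meas : Measurable L.e
  T_meas : Measurable T
  dne : ∀ p ∈ L.W, deriv L.e p ≠ 0
  slope : ∀ m : ℕ, 1 ≤ m → ∀ x y : ℝ, (⟨x, y⟩ : ℂ) ∈ L.W →
    HasDerivAt (fun t : ℝ => ‖gf L m ⟨x, t⟩‖ ^ 2) (2 / m * af L m ⟨x, y⟩ * (kap * (T ⟨x, y⟩ - x))) y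
  int1 : ∀ m : ℕ, 1 ≤ m → ∫⁻ p, ENNReal.ofReal (af L m p) = ENNReal.ofReal (m * Real.pi)
  int2 : Tendsto (fun m : ℕ =>
    (∫⁻ p, ENNReal.ofReal (af L m p * (1 - qf (T p) p.re))) / (m : ℝ≥0∞)) atTop (𝓝 0)

/-- `(K - x)°` for `K = {|l_k| ≤ 1}` -/
def PolAt {κ : Type} {n : ℕ} (l : κ → Fin n → ℝ) (x : Fin n → ℝ) : Set (Fin n → ℝ) :=
  {y | ∀ x', (∀ k, |l k ⬝ᵥ x'| ≤ 1) → (x' - x) ⬝ᵥ y ≤ 1}

/-- (B0) monotonicity of `‖e‖` on vertical lines.  Proof: the argument `H4_mono` of `H4.lean`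
(no minimum of the continuous function `t ↦ ‖e⟨x,t⟩‖²` on `[y, y']` in `(y, y']`: at such a point `s`
the value is `< 1`, so the point is in `W`, `T ⟨x,s⟩ > T ⟨x,y⟩ > x` and the derivative
`2 af (kap (T - x))` is positive, `af L 1 p = ‖deriv L.e p‖² > 0`); the second part follows from
the first at `-p`. -/
def S_B0 : Prop := ∀ R : RL, ∀ x y y' : ℝ, (⟨x, y⟩ : ℂ) ∈ R.L.W → (⟨x, y'⟩ : ℂ) ∈ R.L.W → y < y' →
  (x < R.T ⟨x, y⟩ → ‖R.L.e ⟨x, y⟩‖ < ‖R.L.e ⟨x, y'⟩‖) ∧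
  (R.T ⟨x, y'⟩ < x → ‖R.L.e ⟨x, y'⟩‖ < ‖R.L.e ⟨x, y⟩‖)

/-- (B1) the real side for fixed `x`.  Proof: `Pool/Agent/H712R2/MA/R1.lean` with the slice function
`FF m x y = ‖e⟨x,y⟩‖^(2m)/(1-x)` if `x < T⟨x,y⟩`, `-‖e⟨x,y⟩‖^(2m)/(1+x)` if `T⟨x,y⟩ < x`, `0` if
`T⟨x,y⟩ = x`; strictly increasing in `y` on the slice off the (at most one) zero of `T - x` by (B0)
(and for `y < y'` on different sides of it by sign); the map `u ↦ Σ_k m FF(l_k x, l_k u) l_k` on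
`{V < 1}` off the hyperplanes `{T⟨l_k x, l_k u⟩ = l_k x}` (for `l_k ≠ 0`; null sets: `T` is injective
on the slice) is injective, its image is in `m • PolAt l x`:
`FF_k (l_k x' - l_k x) ≤ ‖e‖^(2m)` for `|l_k x'| ≤ 1`; derivative of `m FF` is `2 kap qf af`. -/
def S_B1 : Prop := ∀ R : RL, ∀ (κ : Type) [Fintype κ] (n : ℕ) (m : ℕ), 1 ≤ m →
  ∀ (l : κ → Fin n → ℝ), Spans l → ∀ x : Fin n → ℝ,
  ∫⁻ u in {u : Fin n → ℝ | VV R.L m l (x, u) < 1},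
      ENNReal.ofReal (DS l (fun k => 2 * R.kap * qf (R.T (pk (l k) (x, u))) (pk (l k) (x, u)).re *
        af R.L m (pk (l k) (x, u)))) ≤
    (n.factorial : ℝ≥0∞) * (m : ℝ≥0∞) ^ n * volume (PolAt l x)

/-- (B2) integrated over `x`; as `Pool/Agent/H712R2/MA/R2.lean`. -/
def S_B2 : Prop := ∀ R : RL, ∀ (κ : Type) [Fintype κ] (n : ℕ) (m : ℕ), 1 ≤ m →
  ∀ (l : κ → Fin n → ℝ), Spans l →
  ∫⁻ z in {z : E2 n | VV R.L m l z < 1},
      ENNReal.ofReal (DS l (fun k => 2 * R.kap * qf (R.T (pk (l k) z)) (pk (l k) z).re *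
        af R.L m (pk (l k) z))) ≤
    (n.factorial : ℝ≥0∞) * (m : ℝ≥0∞) ^ n *
      ∫⁻ x in {x : Fin n → ℝ | ∀ k, |l k ⬝ᵥ x| < R.lam}, volume (PolAt l x)

/-- (B3) the error term; as `Pool/Agent/H712R2/MA/E.lean` (with `H712MA.F : H712MA.S_F`). -/
def S_B3 : Prop := ∀ R : RL, ∀ (κ : Type) [Fintype κ] (r : ℕ) (m : ℕ), 1 ≤ m →
  ∀ (l : κ → Fin (r + 1) → ℝ),
  ∫⁻ z in {z : E2 (r + 1) | VV R.L m l z < 1},
      ENNReal.ofReal (DS l (fun k => af R.L m (pk (l k) z))) ≤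
    (∫⁻ z in {z : E2 (r + 1) | VV R.L m l z < 1}, ENNReal.ofReal
      (DS l (fun k => qf (R.T (pk (l k) z)) (pk (l k) z).re * af R.L m (pk (l k) z)))) +
    ((Fintype.card κ : ℝ≥0∞) ^ (r + 1) * ((r + 1 : ℕ) : ℝ≥0∞)) *
      (ENNReal.ofReal (m * Real.pi) ^ r *
        ∫⁻ p, ENNReal.ofReal (af R.L m p * (1 - qf (R.T p) p.re)))

/-- (B4) the polytope inequality; as `Pool/Agent/H712R2/MA/Z.lean`, from (B2), (B3) and the library
pieces `S_C6` (see `Pool/Agent/Results/MP_6fea95_gt/FullMahler.lean`: `sS_C6`) and `H712MA.S`. -/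
def S_B4 : Prop := ∀ R : RL, ∀ (κ : Type) [Fintype κ] (r : ℕ) (l : κ → Fin (r + 1) → ℝ), Spans l →
  ENNReal.ofReal ((2 * Real.pi * R.kap) ^ (r + 1) / (r + 1).factorial) ≤
    ∫⁻ x in {x : Fin (r + 1) → ℝ | ∀ k, |l k ⬝ᵥ x| < R.lam}, volume (PolAt l x)

/-- `(K - x)°` -/
def PK {n : ℕ} (K : Set (Fin n → ℝ)) (x : Fin n → ℝ) : Set (Fin n → ℝ) :=
  {y | ∀ x' ∈ K, (x' - x) ⬝ᵥ y ≤ 1}

/-- (C1) from polytopes `{|l_k| ≤ 1}` to symmetric convex bodies.  Proof: take `μ = (1+ε) lam b`; the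
decreasing compact sets `Bd (ll r y N)` of `Pool/Agent/H712R2/MA/G.lean` (namespace `H712MA.GB`;
intersection `K`) are in `(1+ε) K` for some `N`; there `{|l_k x| < lam} ⊆ lam • Bd l ⊆ μ • K` and
`PolAt l x ⊆ PK K x` as `K ⊆ Bd l`.  Use (B4) for an `R` with `kap = b`, `lam = lam b`. -/
def S_C1 : Prop := ∀ (r : ℕ) (K : Set (Fin (r + 1) → ℝ)), IsCompact K → Convex ℝ K →
  (interior K).Nonempty → (∀ x ∈ K, -x ∈ K) → ∀ b μ : ℝ, 0 < b → lam b < μ → μ < 1 →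
  ENNReal.ofReal ((2 * Real.pi * b) ^ (r + 1) / (r + 1).factorial) ≤
    ∫⁻ x in {x | ∃ x' ∈ K, x = μ • x'}, volume (PK K x)

/-! ## D. Faces of the convex hull of a finite set -/

/-- the points of `S` where the functional `y` is maximal -/
def top {n : ℕ} (S : Finset (Fin n → ℝ)) (y : Fin n → ℝ) : Finset (Fin n → ℝ) := by
  classical exact S.filter fun s => ∀ s' ∈ S, s' ⬝ᵥ y ≤ s ⬝ᵥ y

/-- (vertex sets of) nonempty exposed faces, `S` itself included -/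
def FF {n : ℕ} (S A : Finset (Fin n → ℝ)) : Prop := A.Nonempty ∧ ∃ y, top S y = A

/-- dimension -/
def dm {n : ℕ} (A : Finset (Fin n → ℝ)) : ℕ :=
  Module.finrank ℝ (vectorSpan ℝ (A : Set (Fin n → ℝ)))

/-- centre of a face -/
def ce {n : ℕ} (A : Finset (Fin n → ℝ)) : Fin n → ℝ := (A.card : ℝ)⁻¹ • ∑ s ∈ A, s

/-- complete flags -/
def Flags {n : ℕ} (S : Finset (Fin n → ℝ)) : Set (Fin n → Finset (Fin n → ℝ)) :=
  {f | Monotone f ∧ ∀ i : Fin n, FF S (f i) ∧ dm (f i) = (i : ℕ)}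

/-- the origin is an interior point of the convex hull -/
def Pos {n : ℕ} (S : Finset (Fin n → ℝ)) : Prop :=
  (0 : Fin n → ℝ) ∈ interior (convexHull ℝ (S : Set (Fin n → ℝ)))

/-- (D0) basic facts.  (1) a face of a face is a face: `B = top S y`, `v` arbitrary, then the points of
`B` where `v` is maximal on `B` are `top S (M y + v)` for large `M` (finiteness).  (2) dimension is
strictly monotone.  (3) `dm S = n`, and `dm A < n` for a face `A ≠ S`.  (4) `top S 0 = S`, and a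
face with nonzero normal is not `S`. (5) a normal can be normalised: for a face `A ≠ S` there is `w`
with `top S w = A` and `s ⬝ᵥ w = 1` on `A` (the maximum of a nonzero functional is positive). -/
def S_D0 : Prop := ∀ (n : ℕ) (S : Finset (Fin n → ℝ)), Pos S →
  (∀ B, FF S B → ∀ v : Fin n → ℝ, FF S (top B v)) ∧
  (∀ A B, FF S A → FF S B → A ⊆ B → A ≠ B → dm A < dm B) ∧
  (FF S S ∧ dm S = n ∧ ∀ A, FF S A → A ≠ S → dm A < n) ∧
  (∀ y, y ≠ 0 → top S y ≠ S) ∧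
  (∀ A, FF S A → A ≠ S → ∃ w, top S w = A ∧ ∀ s ∈ A, s ⬝ᵥ w = 1)

/-- (D1) intermediate faces.  Proof.  Let `A ⊂ B` be faces, `dm A + 2 ≤ dm B`, `A = top S y`,
`a ∈ A`.  Choose `v` orthogonal to `vectorSpan A` such that no nontrivial combination of `y, v` is
orthogonal to `vectorSpan B` (dimensions), and (replacing `v` by `-v`) `β(s) = (s - a)·v > 0` for
some `s ∈ B`.  `α(s) = (a - s)·y ≥ 0` for `s ∈ S`, `= 0` on `A` only.  Let `t` be the minimum of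
`α(s)/β(s)` over `s ∈ B`, `β(s) > 0`.  Then `C = top B (y + t v)` satisfies `A ⊂ C ⊂ B`, both strict.
Induction on `dm B - dm A` gives (1) and (2).  (3): if `dm B > 0` take `v` not constant on `B`,
`top B v ⊂ B`; induction. -/
def S_D1 : Prop := ∀ (n : ℕ) (S : Finset (Fin n → ℝ)), Pos S →
  (∀ A B, FF S A → FF S B → A ⊆ B → A ≠ B →
    (∃ C, FF S C ∧ A ⊆ C ∧ C ⊆ B ∧ dm C = dm A + 1) ∧
    (∃ C, FF S C ∧ A ⊆ C ∧ C ⊆ B ∧ dm C + 1 = dm B)) ∧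
  (∀ B, FF S B → ∃ A, FF S A ∧ A ⊆ B ∧ dm A = 0)

/-- (D2) the flags cover the polytope.  Proof.  Claim, by induction on `dm B`, for faces `B` and
`o ∈ convexHull B`: every `x ∈ convexHull B` is `a o + Σ_{i < dm B} a_i ce(g_i)`, `a, a_i ≥ 0` with sum
`1`, for a chain `g_0 ⊂ ... ⊂ g_(dm B - 1) ⊂ B` of faces with `dm g_i = i`.  If `x ≠ o` let `t ≥ 0`
be maximal with `x' = x + t (x - o) ∈ convexHull B` (compactness).  Then `x' - o` is not a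
nonnegative combination of the `s - x'`, `s ∈ B`, so by Farkas (`Pool.Agent.H575R2.Farkas`,
`farkas_lin`) there is `v` with `(s - x')·v ≤ 0` on `B` and `(x' - o)·v > 0`; so
`x' ∈ convexHull (top B v)` and `top B v ≠ B`.  By (D1) there is a face `C`,
`top B v ⊆ C ⊆ B`, `dm C + 1 = dm B`; apply the induction to `C`, `o = ce C`, `x'`.  Finally
`B = S`, `o = 0`. -/
def S_D2 : Prop := ∀ (n : ℕ) (S : Finset (Fin n → ℝ)), Pos S →
  ∀ x ∈ convexHull ℝ (S : Set (Fin n → ℝ)), ∃ f ∈ Flags S, ∃ a : Fin n → ℝ,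
    (∀ i, 0 ≤ a i) ∧ ∑ i, a i ≤ 1 ∧ x = ∑ i, a i • ce (f i)

/-- (D3) the normal cones of the flags cover the dual space.  `w A` is any choice of normals.  Proof.
Claim, by induction on `n - dm A`, for a face `A` and `y` with `A ⊆ top S y`: there are faces
`A = g_i ⊂ g_(i+1) ⊂ ... ⊂ g_(n-1)` (`i = dm A`, `dm g_j = j`) and `b_j ≥ 0` with
`y = Σ b_j w(g_j)`.  If `A = S` then `y = 0`.  Otherwise let `b ≥ 0` be maximal with
`A ⊆ top S (y - b w A)` (closed condition, bounded since some `s ∈ S` has `s·w A < 1`);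
`top S (y - b w A) ≠ A` since otherwise `b` could be increased (finitely many strict inequalities);
by (D1) there is a face `C` with `A ⊆ C ⊆ top S (y - b w A)`, `dm C = dm A + 1`.
Start with a vertex `A ⊆ top S y` (D1). -/
def S_D3 : Prop := ∀ (n : ℕ) (S : Finset (Fin n → ℝ)), 1 ≤ n → Pos S →
  ∀ w : Finset (Fin n → ℝ) → (Fin n → ℝ),
  (∀ A, FF S A → A ≠ S → top S (w A) = A ∧ ∀ s ∈ A, s ⬝ᵥ w A = 1) →
  ∀ y : Fin n → ℝ, ∃ g ∈ Flags S, ∃ b : Fin n → ℝ, (∀ i, 0 ≤ b i) ∧ y = ∑ i, b i • w (g i)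

/-- (D4) the pairing of centres and normals.  Proof: `ce A` is the mean of the points of `A`, each of
which has `s·w B ≤ 1` with equality iff `s ∈ B`; if `A ⊆ B` fails the mean is `< 1`.  For flags:
`f i ⊆ g j` implies `i ≤ j` (dimensions), and if `i = j` it implies `f i = g j`. -/
def S_D4 : Prop := ∀ (n : ℕ) (S : Finset (Fin n → ℝ)), Pos S →
  ∀ w : Finset (Fin n → ℝ) → (Fin n → ℝ),
  (∀ A, FF S A → A ≠ S → top S (w A) = A ∧ ∀ s ∈ A, s ⬝ᵥ w A = 1) →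
  ∀ f ∈ Flags S, ∀ g ∈ Flags S,
    (∀ i j, ce (f i) ⬝ᵥ w (g j) ≤ 1) ∧
    (∀ i j, j < i → ce (f i) ⬝ᵥ w (g j) < 1) ∧
    (f ≠ g → ∃ j, ce (f j) ⬝ᵥ w (g j) < 1) ∧
    (∀ i j, i ≤ j → ce (f i) ⬝ᵥ w (f j) = 1) ∧ (Flags S).Finite

/-! ## E. Integrals -/

/-- the region `1 ≥ t_0 ≥ ... ≥ t_r ≥ ε` -/
def Rg (r : ℕ) (ε : ℝ) : Set (Fin (r + 1) → ℝ) := {t | Antitone t ∧ ∀ i, ε ≤ t i ∧ t i ≤ 1}

/-- (E1) Proof.  More generally, for `k`, `c ≥ 0`, the integral with the additional factor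
`(log(1/t_0) + c)^k/k!` is at most `(log(1/ε) + c + r log(1/ρ))^(r+1+k)/(r+1+k)!`, by induction on
`r`: integrate over `t_0 ∈ [t_1, 1]` (`volume_preserving_piFinSuccAbove`, index `0`).  For
`0 < s ≤ t ≤ 1`: `1/((t-s)+ρs) = 1/t + (1-ρ)s/(t(t-(1-ρ)s))`, and with `ℓ(t) = log(1/t)+c`
`∫_s^1 ℓ(t)^k/k! dt/((t-s)+ρs) ≤ ∫_s^1 ℓ(t)^k/(k! t) dt + ℓ(s)^k/k! · [log((t-(1-ρ)s)/t)]_s^1
≤ ℓ(s)^(k+1)/(k+1)! + log(1/ρ) ℓ(s)^k/k! ≤ (ℓ(s) + log(1/ρ))^(k+1)/(k+1)!`. -/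
def S_E1 : Prop := ∀ (r : ℕ) (ρ ε : ℝ), 0 < ρ → ρ ≤ 1 → 0 < ε → ε < 1 →
  ∫⁻ t in Rg r ε, (∏ j : Fin r, ENNReal.ofReal
      (1 / ((t j.castSucc - t j.succ) + ρ * t j.succ))) * ENNReal.ofReal (1 / t (Fin.last r)) ≤
    ENNReal.ofReal ((Real.log (1 / ε) + r * Real.log (1 / ρ)) ^ (r + 1) / (r + 1).factorial)

/-- (E2) Proof.  `j = 0`: drop the order, bound the factor of `t_0` by `∫_0^1 dt_0 = 1`, product
measure.  `j = i+1`: the factor is `1/t_i`; integrate first over `t_(i+1) ∈ [0, t_i]`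
(`volume_preserving_piFinSuccAbove`), the rest is a product of `r` integrals `∫_ε^1 dt/t`. -/
def S_E2 : Prop := ∀ (r : ℕ) (ε : ℝ) (j : Fin (r + 1)), 0 < ε → ε < 1 →
  ∫⁻ t in Rg r ε, ∏ k : Fin (r + 1), ENNReal.ofReal
      (1 / (if k = j then (if h : 0 < (k : ℕ) then t ⟨(k : ℕ) - 1, by omega⟩ else 1) else t k)) ≤
    ENNReal.ofReal (Real.log (1 / ε) ^ r)

/-- (E3) the volume of a simplex (Mathlib or the tree: look for the volume of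
`{b ≥ 0, Σ b ≤ 1}` = `1/n!`, then scale the coordinates). -/
def S_E3 : Prop := ∀ (n : ℕ) (D : Fin n → ℝ), (∀ j, 0 < D j) →
  volume {b : Fin n → ℝ | (∀ j, 0 ≤ b j) ∧ ∑ j, b j * D j ≤ 1} =
    ENNReal.ofReal (1 / (n.factorial * ∏ j, D j))

/-! ## F. Assembly -/

/-- (F1) the flag inequality in coordinates (owner) -/
def S_F1 : Prop := ∀ (r : ℕ) (S : Finset (Fin (r + 1) → ℝ)),
  (interior (convexHull ℝ (S : Set (Fin (r + 1) → ℝ)))).Nonempty →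
  (∀ x ∈ convexHull ℝ (S : Set (Fin (r + 1) → ℝ)), -x ∈ convexHull ℝ (S : Set (Fin (r + 1) → ℝ))) →
  Pos S ∧ (Flags S).Finite ∧ 2 ^ (r + 1) * (r + 1).factorial ≤ (Flags S).ncard

/-- (F2) the frozen statement for `d = r + 1` from (F1).  Proof: transport `S` to coordinates by
`WithLp.ofLp`; a flag `f` gives the chain `i ↦ convexHull (f i)` (in `EuclideanSpace`): the convex
hull of `top S y` is the exposed face `{x ∈ conv S | ∀ z ∈ conv S, z·y ≤ x·y}`, its `vectorSpan` is that of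
`f i`; this is injective on flags since `top S y = S ∩ conv(top S y)`. -/
def S_F2 : Prop := ∀ (r : ℕ) (S : Finset (EuclideanSpace ℝ (Fin (r + 1)))),
      (interior (convexHull ℝ (S : Set (EuclideanSpace ℝ (Fin (r + 1)))))).Nonempty →
      (∀ x ∈ convexHull ℝ (S : Set (EuclideanSpace ℝ (Fin (r + 1)))),
          -x ∈ convexHull ℝ (S : Set (EuclideanSpace ℝ (Fin (r + 1))))) →
      (((2 ^ (r + 1) * (r + 1).factorial : ℕ)) : ℕ∞) ≤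
        {f : Fin (r + 1) → Set (EuclideanSpace ℝ (Fin (r + 1))) |
          Monotone f ∧ ∀ i : Fin (r + 1), (f i).Nonempty ∧
            IsExposed ℝ (convexHull ℝ (S : Set (EuclideanSpace ℝ (Fin (r + 1))))) (f i) ∧
            Module.finrank ℝ (vectorSpan ℝ (f i)) = (i : ℕ)}.encard

end Run7.h237.FK
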